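import Pool.Agent.LAT.Sigma

/-!
# The angular reparametrisation is a bijection; the area preserving embedding
-/

open Real Filter Topology

namespace Pool.Agent.LAT

noncomputable section

def ff (τ r φ : ℝ) : ℝ := φ + τ * arcsin (r * sin φ)

theorem rsin_lt {r : ℝ} (hr0 : 0 ≤ r) (hr1 : r < 1) (φ : ℝ) : |r * sin φ| < 1 := by
  rw [abs_mul, abs_of_nonneg hr0]
  calc r * |sin φ| ≤ r * 1 := mul_le_mul_of_nonneg_left (abs_sin_le_one φ) hr0
    _ < 1 := by linarith

theorem hasDerivAt_ff {τ r : ℝ} (hr0 : 0 ≤ r) (hr1 : r < 1) (φ : ℝ) :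
    HasDerivAt (ff τ r) (1 + τ * (1 / √(1 - (r * sin φ) ^ 2) * (r * cos φ))) φ := by
  have h1 := abs_lt.1 (rsin_lt hr0 hr1 φ)
  have h2 : HasDerivAt (fun φ => r * sin φ) (r * cos φ) φ := (Real.hasDerivAt_sin φ).const_mul r
  have h3 := (Real.hasDerivAt_arcsin h1.1.ne' h1.2.ne).comp φ h2
  exact (hasDerivAt_id φ).add (h3.const_mul τ)

theorem strictMono_ff {τ r : ℝ} (hτ0 : 0 ≤ τ) (hτ1 : τ < 1) (hr0 : 0 ≤ r) (hr1 : r < 1) :
    StrictMono (ff τ r) := by
  apply strictMono_of_deriv_pos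
  intro φ
  rw [(hasDerivAt_ff hr0 hr1 φ).deriv]
  have h1 := rsin_lt hr0 hr1 φ
  have h2 : (r * sin φ) ^ 2 < 1 := (sq_lt_one_iff_abs_lt_one _).2 h1
  have h3 : 0 < √(1 - (r * sin φ) ^ 2) := Real.sqrt_pos.2 (by linarith)
  have h4 : |r * cos φ| ≤ √(1 - (r * sin φ) ^ 2) := by
    apply Real.le_sqrt_of_sq_le
    rw [sq_abs]
    have h5 := Real.sin_sq_add_cos_sq φ
    have h6 : (r * cos φ) ^ 2 + (r * sin φ) ^ 2 = r ^ 2 := by
      have : (r * cos φ) ^ 2 + (r * sin φ) ^ 2 = r ^ 2 * (sin φ ^ 2 + cos φ ^ 2) := by ring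
      rw [this, h5, mul_one]
    nlinarith
  have h7 : -1 ≤ 1 / √(1 - (r * sin φ) ^ 2) * (r * cos φ) := by
    rw [one_div_mul_eq_div, le_div_iff₀ h3]
    have := (abs_le.1 h4).1
    linarith
  nlinarith

theorem continuous_ff {τ r : ℝ} : Continuous (ff τ r) := by
  unfold ff
  exact continuous_id.add (continuous_const.mul
    (Real.continuous_arcsin.comp (continuous_const.mul Real.continuous_sin)))

theorem ff_close {τ r : ℝ} (hτ0 : 0 ≤ τ) (hτ1 : τ < 1) (φ : ℝ) : |ff τ r φ - φ| ≤ π / 2 := by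
  have h1 : ff τ r φ - φ = τ * arcsin (r * sin φ) := by unfold ff; ring
  rw [h1, abs_mul, abs_of_nonneg hτ0]
  have h2 : |arcsin (r * sin φ)| ≤ π / 2 :=
    abs_le.2 ⟨Real.neg_pi_div_two_le_arcsin _, Real.arcsin_le_pi_div_two _⟩
  have hpi := Real.pi_pos
  calc τ * |arcsin (r * sin φ)| ≤ 1 * (π / 2) :=
        mul_le_mul hτ1.le h2 (abs_nonneg _) (by norm_num)
    _ = π / 2 := by ring

theorem surj_ff {τ r : ℝ} (hτ0 : 0 ≤ τ) (hτ1 : τ < 1) : Function.Surjective (ff τ r) := by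
  intro θ
  have h1 := ff_close (r := r) hτ0 hτ1 (θ - π / 2)
  have h2 := ff_close (r := r) hτ0 hτ1 (θ + π / 2)
  rw [abs_le] at h1 h2
  have hpi := Real.pi_pos
  have h3 : ff τ r (θ - π / 2) ≤ θ := by linarith
  have h4 : θ ≤ ff τ r (θ + π / 2) := by linarith
  have h5 := intermediate_value_Icc (show θ - π / 2 ≤ θ + π / 2 by linarith)
    (continuous_ff (τ := τ) (r := r)).continuousOn
  obtain ⟨φ, _, hφ⟩ := h5 ⟨h3, h4⟩
  exact ⟨φ, hφ⟩

theorem ff_shift (τ r φ : ℝ) (m : ℤ) : ff τ r (φ + m * (2 * π)) = ff τ r φ + m * (2 * π) := by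
  unfold ff
  rw [Real.sin_add_int_mul_two_pi]
  ring

/-- the point with polar coordinates `(R, φ)` -/
def pol (R φ : ℝ) : ℂ := ⟨R * cos φ, R * sin φ⟩

theorem norm_pol (R φ : ℝ) (hR : 0 ≤ R) : ‖pol R φ‖ = R := by
  have h : ‖pol R φ‖ ^ 2 = R ^ 2 := by
    rw [← Complex.normSq_eq_norm_sq, Complex.normSq_apply]
    unfold pol
    simp only
    have := Real.sin_sq_add_cos_sq φ
    nlinarith
  exact (sq_eq_sq₀ (norm_nonneg _) hR).1 h

theorem exists_pol (w : ℂ) : ∃ φ, w = pol ‖w‖ φ := by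
  refine ⟨w.arg, ?_⟩
  apply Complex.ext
  · exact (Complex.norm_mul_cos_arg w).symm
  · exact (Complex.norm_mul_sin_arg w).symm

variable {k : ℝ}

theorem rho_pol (hk : 0 < k) (R : ℝ) (hR : 0 ≤ R) : ∃ τ r : ℝ, 0 ≤ τ ∧ τ < 1 ∧ 0 ≤ r ∧ r < 1 ∧
    ∀ φ, rho k (pol R φ) = pol R (ff τ r φ) := by
  set T := k + R ^ 2 with hT
  set c := √(T + k) with hc
  set M := √(T * T + k * k) with hM
  have hTp : 0 < T := by positivity
  have hM2 : M * M = T * T + k * k := Real.mul_self_sqrt (by positivity)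
  have hMp : 0 < M := Real.sqrt_pos.2 (by positivity)
  have hc2 : c * c = T + k := Real.mul_self_sqrt (by positivity)
  have hcp : 0 < c := Real.sqrt_pos.2 (by positivity)
  refine ⟨T / M, M * R * c / (T * T), by positivity, ?_, by positivity, ?_, ?_⟩
  · rw [div_lt_one hMp]
    by_contra hcon
    push Not at hcon
    nlinarith [mul_pos hk hk]
  · rw [div_lt_one (by positivity)]
    apply lt_of_pow_lt_pow_left₀ 2 (by positivity)
    have h1 : (M * R * c) ^ 2 = (M * M) * (c * c) * R ^ 2 := by ring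
    have h2 : R ^ 2 = T - k := by rw [hT]; ring
    rw [h1, hM2, hc2, h2]
    have h3 : (T * T) ^ 2 - (T * T + k * k) * (T + k) * (T - k) = k ^ 4 := by ring
    have h4 : 0 < k ^ 4 := by positivity
    linarith
  · intro φ
    have hTT : TT k (pol R φ) = T := by
      rw [TT_eq, norm_pol R φ hR]
      exact hk
    have hcc : cc k (pol R φ) = c := by unfold cc; rw [hTT]
    have hMM : MM k (pol R φ) = M := by unfold MM; rw [hTT]
    have hchi : chi k (pol R φ) = T / M * arcsin (M * R * c / (T * T) * sin φ) := by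
      unfold chi
      rw [hTT, hMM]
      congr 2
      unfold VV
      rw [hcc]
      change M * (R * sin φ * c) / (T * T) = _
      ring
    unfold rho
    rw [hchi]
    unfold pol ff
    simp only
    apply Complex.ext
    · simp only
      rw [Real.cos_add]; ring
    · simp only
      rw [Real.sin_add]; ring

theorem inj_rho (hk : 0 < k) : Function.Injective (rho k) := by
  intro w w' h
  have hn : ‖w‖ = ‖w'‖ := by rw [← norm_rho k w, ← norm_rho k w', h]
  obtain ⟨φ, hφ⟩ := exists_pol w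
  obtain ⟨φ', hφ'⟩ := exists_pol w'
  rw [← hn] at hφ'
  obtain ⟨τ, r, hτ0, hτ1, hr0, hr1, hρ⟩ := rho_pol hk ‖w‖ (norm_nonneg _)
  rw [hφ, hφ'] at h
  set R := ‖w‖ with hR
  rw [hρ, hρ] at h
  rcases (norm_nonneg w).eq_or_lt with h0 | h0
  · have h1 : w = 0 := norm_eq_zero.1 h0.symm
    have h2 : w' = 0 := norm_eq_zero.1 (hn ▸ h0.symm)
    rw [h1, h2]
  · have hRp : R ≠ 0 := h0.ne'
    have hc : cos (ff τ r φ) = cos (ff τ r φ') :=
      mul_left_cancel₀ hRp (congrArg Complex.re h)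
    have hs : sin (ff τ r φ) = sin (ff τ r φ') :=
      mul_left_cancel₀ hRp (congrArg Complex.im h)
    have h1 : ((ff τ r φ : ℝ) : Real.Angle) = ((ff τ r φ' : ℝ) : Real.Angle) :=
      Real.Angle.cos_sin_inj hc hs
    rw [Real.Angle.angle_eq_iff_two_pi_dvd_sub] at h1
    obtain ⟨m, hm⟩ := h1
    have h2 : ff τ r φ = ff τ r (φ' + m * (2 * π)) := by
      rw [ff_shift]; linarith
    have h3 := (strictMono_ff hτ0 hτ1 hr0 hr1).injective h2
    rw [hφ, hφ', h3]
    unfold pol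
    rw [Real.cos_add_int_mul_two_pi, Real.sin_add_int_mul_two_pi]

theorem surj_rho (hk : 0 < k) : Function.Surjective (rho k) := by
  intro z
  obtain ⟨θ, hθ⟩ := exists_pol z
  obtain ⟨τ, r, hτ0, hτ1, hr0, hr1, hρ⟩ := rho_pol hk ‖z‖ (norm_nonneg _)
  obtain ⟨φ, hφ⟩ := surj_ff (r := r) hτ0 hτ1 θ
  refine ⟨pol ‖z‖ φ, ?_⟩
  rw [hρ, hφ]
  exact hθ.symm

theorem fderiv_injective_of_om {F : ℂ → ℂ} {w : ℂ} {J : ℝ} (hJ : J ≠ 0)
    (h : ∀ u v, om (fderiv ℝ F w u) (fderiv ℝ F w v) = J * om u v) :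
    Function.Injective (fderiv ℝ F w) := by
  rw [injective_iff_map_eq_zero]
  intro u hu
  have h1 : ∀ v, om u v = 0 := by
    intro v
    have h2 := h u v
    rw [hu] at h2
    have h3 : om 0 (fderiv ℝ F w v) = 0 := by simp [om]
    rw [h3] at h2
    rcases mul_eq_zero.1 h2.symm with h4 | h4
    · exact absurd h4 hJ
    · exact h4
  have h2 := h1 Complex.I
  have h3 := h1 1
  simp [om] at h2 h3
  exact Complex.ext h2 h3

/-- **The area preserving embedding of the plane into a half strip.** For every `k > 0` there is a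
smooth injective area preserving map `σ : ℂ → (0, ∞) × (-1/2, 1/2)` whose first coordinate at `z`
is at most `π |z|² + k`. -/
theorem exists_sigma (hk : 0 < k) : ∃ σ : ℂ → ℂ, ContDiff ℝ ((⊤ : ℕ∞) : WithTop ℕ∞) σ ∧
    Function.Injective σ ∧ (∀ z, 0 < (σ z).re) ∧ (∀ z, (σ z).re ≤ π * ‖z‖ ^ 2 + k) ∧
    (∀ z, |(σ z).im| < 1 / 2) ∧
    ∀ z u v, om (fderiv ℝ σ z u) (fderiv ℝ σ z v) = om u v := by
  have hpi := Real.pi_pos
  -- the inverse of `rho`
  obtain ⟨g, hg⟩ := (surj_rho hk).hasRightInverse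
  have hgs : ContDiff ℝ ((⊤ : ℕ∞) : WithTop ℕ∞) g :=
    contDiff_of_rightInverse (by simp) (cd_rho hk)
      (fun w => fderiv_injective_of_om (JJ_pos hk w).ne' fun u v => (om_rho hk w u v).2) hg
      (inj_rho hk)
  have hgi : Function.Injective g := hg.injective
  have hgn : ∀ z, ‖g z‖ = ‖z‖ := by
    intro z
    rw [← norm_rho k (g z), hg z]
  set sc : ℂ →L[ℝ] ℂ := √π • ContinuousLinearMap.id ℝ ℂ with hsc
  have hscd : ∀ z, sc z = √π • z := fun z => rfl
  have hspi : 0 < √π := Real.sqrt_pos.2 hpi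
  refine ⟨fun z => FF k (g (sc z)), ?_, ?_, ?_, ?_, ?_, ?_⟩
  · exact (cd_FF hk).comp (hgs.comp sc.contDiff)
  · intro z z' h
    have h1 := hgi (inj_FF hk h)
    rw [hscd, hscd] at h1
    exact smul_right_injective ℂ hspi.ne' h1
  · intro z
    exact PP_pos hk _
  · intro z
    have h1 := PP_le hk (g (sc z))
    rw [TT_eq hk, hgn, hscd, norm_smul, Real.norm_eq_abs, abs_of_pos hspi, mul_pow,
      Real.sq_sqrt hpi.le] at h1
    have h2 : ((fun z => FF k (g (sc z))) z).re = PP k (g (sc z)) := rfl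
    rw [h2, hscd]
    linarith
  · intro z
    exact QQ_lt hk _
  · intro z u v
    have hgd : ∀ y, DifferentiableAt ℝ g y := fun y => (hgs.differentiable (by simp)) y
    have h1 : ∀ u, fderiv ℝ (fun z => FF k (g (sc z))) z u
        = fderiv ℝ (FF k) (g (sc z)) (fderiv ℝ g (sc z) (sc u)) := by
      intro u
      have h2 := ((om_FF hk (g (sc z)) 0 0).1.hasFDerivAt.comp (sc z)
        (hgd (sc z)).hasFDerivAt).comp z (sc.hasFDerivAt (x := z))
      rw [show (fun z => FF k (g (sc z))) = (FF k ∘ g) ∘ sc from rfl, h2.fderiv]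
      rfl
    have h3 : ∀ y u, fderiv ℝ (rho k) (g y) (fderiv ℝ g y u) = u := by
      intro y u
      have h4 := (om_rho hk (g y) 0 0).1.hasFDerivAt.comp y (hgd y).hasFDerivAt
      have h5 : rho k ∘ g = id := funext hg
      rw [h5] at h4
      have h6 := h4.unique (hasFDerivAt_id y)
      exact DFunLike.congr_fun h6 u
    have h7 : om (fderiv ℝ g (sc z) (sc u)) (fderiv ℝ g (sc z) (sc v))
        * JJ k (g (sc z)) = om (sc u) (sc v) := by
      have h8 := (om_rho hk (g (sc z)) (fderiv ℝ g (sc z) (sc u)) (fderiv ℝ g (sc z) (sc v))).2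
      rw [h3, h3] at h8
      rw [h8]; ring
    rw [h1, h1, (om_FF hk (g (sc z)) _ _).2]
    have h9 : om (sc u) (sc v) = π * om u v := by
      rw [hscd, hscd]
      unfold om
      simp only [Complex.smul_re, Complex.smul_im, smul_eq_mul]
      have := Real.mul_self_sqrt hpi.le
      have h10 : √π * u.re * (√π * v.im) - √π * u.im * (√π * v.re)
        = (√π * √π) * (u.re * v.im - u.im * v.re) := by ring
      rw [h10, this]
    rw [h9] at h7
    have h11 : JJ k (g (sc z)) / π * om (fderiv ℝ g (sc z) (sc u)) (fderiv ℝ g (sc z) (sc v))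
      = (om (fderiv ℝ g (sc z) (sc u)) (fderiv ℝ g (sc z) (sc v)) * JJ k (g (sc z))) / π := by
      ring
    rw [h11, h7]
    field_simp

end

end Pool.Agent.LAT
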