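import Pool.Agent.LAT.Main

/-!
# A matrix whose lattice avoids the open unit cube is invertible
-/

open Finset

namespace Pool.Agent.LAT

variable {n : ℕ}

theorem det_ne_zero_of_lattice {A : Matrix (Fin n) (Fin n) ℝ}
    (hlat : ∀ m : Fin n → ℤ, m ≠ 0 → ∃ i, 1 ≤ |∑ j, A j i * m j|) : A.det ≠ 0 := by
  intro hdet
  have hdet' : A.transpose.det = 0 := by rw [Matrix.det_transpose]; exact hdet
  obtain ⟨x, hx0, hx⟩ := Matrix.exists_mulVec_eq_zero_iff.2 hdet'
  obtain ⟨j₀, hj₀⟩ := Function.ne_iff.1 hx0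
  simp only [Pi.zero_apply] at hj₀
  -- scale `x`
  obtain ⟨y, hy, hy0⟩ : ∃ y : Fin n → ℝ, (∀ i, ∑ j, A j i * y j = 0) ∧ y j₀ = 2 := by
    refine ⟨fun j => 2 / x j₀ * x j, ?_, by field_simp⟩
    intro i
    have h1 : ∑ j, A j i * x j = 0 := congrFun hx i
    have h2 : ∑ j, A j i * (2 / x j₀ * x j) = 2 / x j₀ * ∑ j, A j i * x j := by
      rw [mul_sum]
      exact sum_congr rfl fun j _ => by ring
    rw [h2, h1, mul_zero]
  -- a bound for the entries
  obtain ⟨M, hM0, hM⟩ : ∃ M : ℕ, 0 < M ∧ ∀ i, ∑ j, |A j i| < M := by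
    obtain ⟨M, hM⟩ := exists_nat_gt (∑ i, ∑ j, |A j i|)
    refine ⟨M + 1, by omega, fun i => ?_⟩
    have h1 : ∑ j, |A j i| ≤ ∑ i, ∑ j, |A j i| :=
      single_le_sum (f := fun i => ∑ j, |A j i|)
        (fun i _ => sum_nonneg fun j _ => abs_nonneg _) (mem_univ i)
    push_cast
    linarith
  have hMr : (0 : ℝ) < M := by exact_mod_cast hM0
  -- pigeonhole
  have hfl : ∀ t : ℕ, ∀ j, ⌊(M : ℝ) * Int.fract (t * y j)⌋₊ < M := by
    intro t j
    rw [Nat.floor_lt (mul_nonneg hMr.le (Int.fract_nonneg _))]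
    have := Int.fract_lt_one ((t : ℝ) * y j)
    nlinarith
  obtain ⟨t, t', htt, hft⟩ := Finite.exists_ne_map_eq_of_infinite
    (fun t : ℕ => fun j : Fin n => (⟨⌊(M : ℝ) * Int.fract (t * y j)⌋₊, hfl t j⟩ : Fin M))
  have hclose : ∀ j, |Int.fract ((t : ℝ) * y j) - Int.fract ((t' : ℝ) * y j)| ≤ 1 / M := by
    intro j
    have h1 : ⌊(M : ℝ) * Int.fract (t * y j)⌋₊ = ⌊(M : ℝ) * Int.fract (t' * y j)⌋₊ := by
      have := congrFun hft j
      exact congrArg Fin.val this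
    have h2 : 0 ≤ (M : ℝ) * Int.fract (t * y j) := mul_nonneg hMr.le (Int.fract_nonneg _)
    have h3 : 0 ≤ (M : ℝ) * Int.fract (t' * y j) := mul_nonneg hMr.le (Int.fract_nonneg _)
    have h4 := Nat.floor_le h2
    have h5 := Nat.lt_floor_add_one ((M : ℝ) * Int.fract (t * y j))
    have h6 := Nat.floor_le h3
    have h7 := Nat.lt_floor_add_one ((M : ℝ) * Int.fract (t' * y j))
    rw [h1] at h4 h5
    rw [abs_le, le_div_iff₀ hMr, neg_le_iff_add_nonneg, ← sub_nonneg]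
    have h8 : -1 / (M : ℝ) ≤ Int.fract ((t : ℝ) * y j) - Int.fract ((t' : ℝ) * y j) := by
      rw [div_le_iff₀ hMr]; nlinarith
    constructor
    · have : (1 : ℝ) / M = -(-1 / M) := by ring
      rw [this]; linarith
    · nlinarith
  set m : Fin n → ℤ := fun j => ⌊(t : ℝ) * y j⌋ - ⌊(t' : ℝ) * y j⌋ with hm
  have hmeq : ∀ j, (m j : ℝ) = ((t : ℝ) - t') * y j
      - (Int.fract ((t : ℝ) * y j) - Int.fract ((t' : ℝ) * y j)) := by
    intro j
    simp only [hm, Int.fract]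
    push_cast
    ring
  have hm0 : m ≠ 0 := by
    intro h
    have h1 := hmeq j₀
    rw [h, hy0] at h1
    simp only [Pi.zero_apply, Int.cast_zero] at h1
    have h2 := Int.fract_nonneg ((t : ℝ) * 2)
    have h3 := Int.fract_lt_one ((t : ℝ) * 2)
    have h4 := Int.fract_nonneg ((t' : ℝ) * 2)
    have h5 := Int.fract_lt_one ((t' : ℝ) * 2)
    have h6 : 1 ≤ |(t : ℝ) - t'| := by
      have : (1 : ℤ) ≤ |(t : ℤ) - t'| := by
        apply Int.one_le_abs
        intro h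
        apply htt
        omega
      have h7 : ((1 : ℤ) : ℝ) ≤ ((|(t : ℤ) - t'| : ℤ) : ℝ) := by exact_mod_cast this
      push_cast at h7
      exact h7
    rcases abs_cases ((t : ℝ) - t') with ⟨h7, _⟩ | ⟨h7, _⟩ <;> linarith
  obtain ⟨i, hi⟩ := hlat m hm0
  have h1 : ∑ j, A j i * m j
      = - ∑ j, A j i * (Int.fract ((t : ℝ) * y j) - Int.fract ((t' : ℝ) * y j)) := by
    have h2 : ∑ j, A j i * m j = ((t : ℝ) - t') * ∑ j, A j i * y j
        - ∑ j, A j i * (Int.fract ((t : ℝ) * y j) - Int.fract ((t' : ℝ) * y j)) := by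
      rw [mul_sum, ← sum_sub_distrib]
      exact sum_congr rfl fun j _ => by rw [hmeq]; ring
    rw [h2, hy i]; ring
  have h2 : |∑ j, A j i * (m j : ℝ)| ≤ ∑ j, |A j i| * (1 / M) := by
    rw [h1, abs_neg]
    refine (abs_sum_le_sum_abs _ _).trans (sum_le_sum fun j _ => ?_)
    rw [abs_mul]
    exact mul_le_mul_of_nonneg_left (hclose j) (abs_nonneg _)
  rw [← sum_mul, mul_one_div] at h2
  have h3 : (∑ j, |A j i|) / M < 1 := by
    rw [div_lt_one hMr]; exact hM i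
  linarith

end Pool.Agent.LAT
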