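import Pool.Agent.LAT.Slit

/-!
# An explicit area preserving embedding of the plane into a half strip: the Jacobians
-/

open Real

namespace Pool.Agent.LAT

noncomputable section

variable {k : ℝ} (hk : 0 < k) (w : ℂ)

theorem hasD_TT : HasD (TT k) (2 * w.re) (2 * w.im) w := by
  have h := (hasD_const k w).add (((hasD_re w).mul (hasD_re w)).add ((hasD_im w).mul (hasD_im w)))
  exact h.congr (by ring) (by ring)

include hk

theorem hasD_cc : HasD (cc k) (w.re / cc k w) (w.im / cc k w) w := by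
  have h := ((hasD_TT (k := k) w).add (hasD_const k w)).sqrt (by linarith [TT_pos hk w])
  have hc := cc_pos hk w
  refine h.congr ?_ ?_
  · change (2 * w.re + 0) / (2 * cc k w) = _
    field_simp
    ring
  · change (2 * w.im + 0) / (2 * cc k w) = _
    field_simp
    ring

theorem hasD_UU : HasD (UU k) (cc k w + w.re * (w.re / cc k w)) (w.re * (w.im / cc k w)) w := by
  have h := (hasD_re w).mul (hasD_cc hk w)
  exact h.congr (by ring) (by ring)

theorem hasD_VV : HasD (VV k) (w.im * (w.re / cc k w)) (cc k w + w.im * (w.im / cc k w)) w := by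
  have h := (hasD_im w).mul (hasD_cc hk w)
  exact h.congr (by ring) (by ring)

/-- general forms of the derivatives of the composite functions -/
theorem hasD_EE {U₁ U₂ : ℝ} (hU : HasD (UU k) U₁ U₂ w) :
    HasD (EE k) (UU k w / EE k w * U₁) (UU k w / EE k w * U₂) w := by
  have h := ((hasD_const (k * k) w).add (hU.mul hU)).sqrt (EE_arg hk w)
  have hE := EE_pos hk w
  refine h.congr ?_ ?_
  · change (0 + (U₁ * UU k w + UU k w * U₁)) / (2 * EE k w) = _
    field_simp
    ring
  · change (0 + (U₂ * UU k w + UU k w * U₂)) / (2 * EE k w) = _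
    field_simp
    ring

theorem hasD_ss {U₁ U₂ T₁ T₂ : ℝ} (hU : HasD (UU k) U₁ U₂ w) (hT : HasD (TT k) T₁ T₂ w) :
    HasD (ss k) (TT k w * (k * k) / (EE k w * EE k w * EE k w) * U₁ + UU k w / EE k w * T₁)
      (TT k w * (k * k) / (EE k w * EE k w * EE k w) * U₂ + UU k w / EE k w * T₂) w := by
  have hE := EE_pos hk w
  have hE2 := EE_sq hk w
  have h := (hU.mul hT).div (hasD_EE hk w hU) hE.ne'
  have hk2 : k * k = EE k w * EE k w - UU k w * UU k w := by linarith
  refine h.congr ?_ ?_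
  · rw [hk2]; field_simp; ring
  · rw [hk2]; field_simp; ring

theorem hasD_QQ {V₁ V₂ T₁ T₂ : ℝ} (hV : HasD (VV k) V₁ V₂ w) (hT : HasD (TT k) T₁ T₂ w) :
    HasD (QQ k) (1 / (π * EE k w) * (V₁ - VV k w / TT k w * T₁))
      (1 / (π * EE k w) * (V₂ - VV k w / TT k w * T₂)) w := by
  have hE := EE_pos hk w
  have hTp := TT_pos hk w
  have h1 := hV.div hT hTp.ne'
  have hlt := S_sq_lt hk w
  have hne1 : VV k w / TT k w ≠ -1 := by
    intro h; rw [h] at hlt; norm_num at hlt
  have hne2 : VV k w / TT k w ≠ 1 := by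
    intro h; rw [h] at hlt; norm_num at hlt
  have h2 := h1.comp (h := arcsin) (Real.hasDerivAt_arcsin hne1 hne2)
  have h3 := h2.mul (hasD_const (1 / π) w)
  rw [sqrt_S hk w] at h3
  have hpi := Real.pi_pos
  refine h3.congr ?_ ?_
  · field_simp; ring
  · field_simp; ring

theorem hasD_PP {s₁ s₂ : ℝ} (hs : HasD (ss k) s₁ s₂ w) :
    HasD (PP k) (JJ k w / 2 * s₁) (JJ k w / 2 * s₂) w := by
  have hE := EE_pos hk w
  have hR := RR_pos hk w
  have h := (hs.add (((hs.mul hs).add (hasD_const (k * k) w)).sqrt (ss_arg hk w))).mul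
    (hasD_const (1 / 2) w)
  rw [sqrt_ss hk w] at h
  refine h.congr ?_ ?_
  · unfold JJ ss; field_simp; ring
  · unfold JJ ss; field_simp; ring

theorem hasD_MM {T₁ T₂ : ℝ} (hT : HasD (TT k) T₁ T₂ w) :
    HasD (MM k) (TT k w / MM k w * T₁) (TT k w / MM k w * T₂) w := by
  have h := ((hT.mul hT).add (hasD_const (k * k) w)).sqrt (MM_arg hk w)
  have hM := MM_pos hk w
  refine h.congr ?_ ?_
  · change (T₁ * TT k w + TT k w * T₁ + 0) / (2 * MM k w) = _
    field_simp
    ring
  · change (T₂ * TT k w + TT k w * T₂ + 0) / (2 * MM k w) = _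
    field_simp
    ring

/-- the Jacobian of `(s, Q)` -/
theorem bracket_sQ : ∃ s₁ s₂ q₁ q₂ : ℝ, HasD (ss k) s₁ s₂ w ∧ HasD (QQ k) q₁ q₂ w ∧
    s₁ * q₂ - s₂ * q₁ = 2 / π := by
  have hT := hasD_TT (k := k) w
  have hU := hasD_UU hk w
  have hV := hasD_VV hk w
  refine ⟨_, _, _, _, hasD_ss hk w hU hT, hasD_QQ hk w hV hT, ?_⟩
  have hE := EE_pos hk w
  have hTp := TT_pos hk w
  have hc := cc_pos hk w
  have hc2 := cc_sq hk w
  have hE2 := EE_sq hk w
  have hkey := key hk w
  have hpi := Real.pi_pos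
  have hN : w.re * w.re + w.im * w.im = TT k w - k := by unfold TT; ring
  -- the three brackets
  have b1 : (cc k w + w.re * (w.re / cc k w)) * (cc k w + w.im * (w.im / cc k w))
      - (w.re * (w.im / cc k w)) * (w.im * (w.re / cc k w)) = 2 * TT k w := by
    have : (cc k w + w.re * (w.re / cc k w)) * (cc k w + w.im * (w.im / cc k w))
      - (w.re * (w.im / cc k w)) * (w.im * (w.re / cc k w))
      = cc k w * cc k w + (w.re * w.re + w.im * w.im) := by field_simp; ring
    rw [this, hc2, hN]; ring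
  have b2 : (cc k w + w.re * (w.re / cc k w)) * (2 * w.im)
      - (w.re * (w.im / cc k w)) * (2 * w.re) = 2 * VV k w := by
    unfold VV; field_simp; ring
  have b3 : (2 * w.re) * (cc k w + w.im * (w.im / cc k w))
      - (2 * w.im) * (w.im * (w.re / cc k w)) = 2 * UU k w := by
    unfold UU; field_simp; ring
  set U₁ := cc k w + w.re * (w.re / cc k w)
  set U₂ := w.re * (w.im / cc k w)
  set V₁ := w.im * (w.re / cc k w)
  set V₂ := cc k w + w.im * (w.im / cc k w)
  set E := EE k w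
  set T := TT k w
  set U := UU k w
  set V := VV k w
  have e1 : (T * (k * k) / (E * E * E) * U₁ + U / E * (2 * w.re)) *
      (1 / (π * E) * (V₂ - V / T * (2 * w.im))) -
      (T * (k * k) / (E * E * E) * U₂ + U / E * (2 * w.im)) *
      (1 / (π * E) * (V₁ - V / T * (2 * w.re)))
      = 1 / (π * E) * (T * (k * k) / (E * E * E) * (U₁ * V₂ - U₂ * V₁)
        - T * (k * k) / (E * E * E) * (V / T) * (U₁ * (2 * w.im) - U₂ * (2 * w.re))
        + U / E * ((2 * w.re) * V₂ - (2 * w.im) * V₁)) := by ring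
  rw [e1, b1, b2, b3]
  have e2 : 1 / (π * E) * (T * (k * k) / (E * E * E) * (2 * T)
        - T * (k * k) / (E * E * E) * (V / T) * (2 * V) + U / E * (2 * U))
      = 2 / (π * (E * E * (E * E))) * (k * k * (T * T - V * V) + U * U * (E * E)) := by
    field_simp
  rw [e2, hkey]
  have e3 : k * k * (E * E) + U * U * (E * E) = (E * E) * (E * E) := by
    rw [hE2]; ring
  rw [e3]
  field_simp

theorem om_FF (u v : ℂ) : DifferentiableAt ℝ (FF k) w ∧
    om (fderiv ℝ (FF k) w u) (fderiv ℝ (FF k) w v) = JJ k w / π * om u v := by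
  obtain ⟨s₁, s₂, q₁, q₂, hs, hq, hb⟩ := bracket_sQ hk w
  have h := om_of_hasD (F := FF k) (hasD_PP hk w hs) hq u v
  refine ⟨h.1, ?_⟩
  rw [h.2]
  have : JJ k w / 2 * s₁ * q₂ - JJ k w / 2 * s₂ * q₁ = JJ k w / π := by
    have : JJ k w / 2 * s₁ * q₂ - JJ k w / 2 * s₂ * q₁ = JJ k w / 2 * (s₁ * q₂ - s₂ * q₁) := by
      ring
    rw [this, hb]
    field_simp
  rw [this]

/-- the angular derivative of `χ` -/
theorem bracket_chi : ∃ c₁ c₂ : ℝ, HasD (chi k) c₁ c₂ w ∧
    w.re * c₂ - w.im * c₁ = JJ k w - 1 := by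
  have hT := hasD_TT (k := k) w
  have hV := hasD_VV hk w
  have hM := hasD_MM hk w hT
  have hTp := TT_pos hk w
  have hMp := MM_pos hk w
  have hR := RR_pos hk w
  have hc := cc_pos hk w
  have ha := (hM.mul hV).div (hT.mul hT) (by positivity)
  have hlt := W_sq_lt hk w
  have hne1 : MM k w * VV k w / (TT k w * TT k w) ≠ -1 := by
    intro h; rw [h] at hlt; norm_num at hlt
  have hne2 : MM k w * VV k w / (TT k w * TT k w) ≠ 1 := by
    intro h; rw [h] at hlt; norm_num at hlt
  have harc := ha.comp (h := arcsin) (Real.hasDerivAt_arcsin hne1 hne2)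
  have hchi := (hT.div hM hMp.ne').mul harc
  rw [sqrt_W hk w] at hchi
  refine ⟨_, _, hchi, ?_⟩
  unfold JJ UU VV
  field_simp
  ring

theorem om_rho (u v : ℂ) : DifferentiableAt ℝ (rho k) w ∧
    om (fderiv ℝ (rho k) w u) (fderiv ℝ (rho k) w v) = JJ k w * om u v := by
  obtain ⟨c₁, c₂, hc, hb⟩ := bracket_chi hk w
  have hcos := hc.comp (h := cos) (Real.hasDerivAt_cos _)
  have hsin := hc.comp (h := sin) (Real.hasDerivAt_sin _)
  have h := om_of_hasD (F := rho k)
    (((hasD_re w).mul hcos).add ((hasD_const (-1) w).mul ((hasD_im w).mul hsin)))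
    (((hasD_re w).mul hsin).add ((hasD_im w).mul hcos)) u v
  refine ⟨h.1, ?_⟩
  rw [h.2]
  have h1 := Real.sin_sq_add_cos_sq (chi k w)
  have h2 : JJ k w = 1 + (w.re * c₂ - w.im * c₁) := by linarith
  rw [h2]
  congr 1
  set S := sin (chi k w)
  set C := cos (chi k w)
  have h3 : C * C = 1 - S * S := by nlinarith
  ring_nf
  ring_nf at h3
  rw [h3]
  ring

end

end Pool.Agent.LAT
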