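import Pool.Agent.LAT.Circle
import Pool.Agent.H60EQ.Core

/-!
# The lattice criterion for symplectic embeddings of ellipsoids: proofs
-/

open Real Filter Topology Set
open scoped ENNReal

namespace Pool.Agent.LAT

open Pool.Agent.H60EQ

noncomputable section

variable {n : ℕ}

theorem omega0_eq (u v : Fin n → ℂ) : omega0 u v = ∑ j, om (u j) (v j) := rfl

theorem eq_zero_of_omega0 {u : Fin n → ℂ} (h : ∀ v, omega0 u v = 0) : u = 0 := by
  funext j
  have h1 : ∀ c : ℂ, om (u j) c = 0 := by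
    intro c
    have h2 := h (Pi.single j c)
    rw [omega0_eq, Finset.sum_eq_single j] at h2
    · rwa [Pi.single_eq_same] at h2
    · intro i _ hi
      rw [Pi.single_eq_of_ne hi]
      simp [om]
    · intro hj; exact absurd (Finset.mem_univ j) hj
  have h2 := h1 Complex.I
  have h3 := h1 1
  simp [om] at h2 h3
  exact Complex.ext h2 h3

/-- an injective smooth map with symplectic derivative is a symplectic embedding -/
theorem isSymplecticEmbedding_of_injOn {U V : Set (Fin n → ℂ)} {φ : (Fin n → ℂ) → (Fin n → ℂ)}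
    (hU : IsOpen U) (hφ : ContDiffOn ℝ ((⊤ : ℕ∞) : WithTop ℕ∞) φ U) (hm : MapsTo φ U V)
    (hi : InjOn φ U)
    (hs : ∀ z ∈ U, ∀ u v : Fin n → ℂ, omega0 (fderiv ℝ φ z u) (fderiv ℝ φ z v) = omega0 u v) :
    IsSymplecticEmbedding U V φ := by
  have hd : DifferentiableOn ℝ φ U := hφ.differentiableOn (by simp)
  refine ⟨⟨hd, hm, hs⟩, hφ, ?_⟩
  have hinj : Function.Injective (fun z : U => φ z) := by
    intro z z' h
    exact Subtype.ext (hi z.2 z'.2 h)
  have hcont : Continuous (fun z : U => φ z) := by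
    have := hφ.continuousOn
    exact continuousOn_iff_continuous_domRestrict.1 this
  have hopen : IsOpenMap (fun z : U => φ z) := by
    rw [isOpenMap_iff_nhds_le]
    intro z
    have hfa : ContDiffAt ℝ ((⊤ : ℕ∞) : WithTop ℕ∞) φ z := hφ.contDiffAt (hU.mem_nhds z.2)
    have hdiff : DifferentiableAt ℝ φ z := hfa.differentiableAt (by simp)
    have hdi : Function.Injective (fderiv ℝ φ (z : Fin n → ℂ)) := by
      rw [injective_iff_map_eq_zero]
      intro u hu
      apply eq_zero_of_omega0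
      intro v
      rw [← hs z z.2 u v, hu]
      simp [omega0]
    set e : (Fin n → ℂ) ≃L[ℝ] (Fin n → ℂ) :=
      (LinearEquiv.ofInjectiveEndo (fderiv ℝ φ (z : Fin n → ℂ) : (Fin n → ℂ) →ₗ[ℝ] (Fin n → ℂ))
        hdi).toContinuousLinearEquiv with he
    have he' : (e : (Fin n → ℂ) →L[ℝ] (Fin n → ℂ)) = fderiv ℝ φ (z : Fin n → ℂ) := by
      ext x; rfl
    have hfd : HasFDerivAt φ (e : (Fin n → ℂ) →L[ℝ] (Fin n → ℂ)) (z : Fin n → ℂ) := by
      rw [he']; exact hdiff.hasFDerivAt
    have h1 := (hfa.hasStrictFDerivAt' hfd (by simp)).map_nhds_eq_of_equiv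
    have h2 : map (fun z : U => φ z) (𝓝 z) = map φ (𝓝 (z : Fin n → ℂ)) := by
      rw [show (fun z : U => φ z) = φ ∘ Subtype.val from rfl, ← Filter.map_map,
        map_nhds_subtype_coe_eq_nhds z.2 (hU.mem_nhds z.2)]
    rw [h2, h1]
  exact (IsOpenEmbedding.of_continuous_injective_isOpenMap hcont hinj hopen).isEmbedding

/-- the toric map `(p, q) ↦ √(p/π) exp (2 π i q)` -/
def tor (ζ : ℂ) : ℂ :=
  ⟨√(ζ.re * (1 / π)) * cos (2 * π * ζ.im), √(ζ.re * (1 / π)) * sin (2 * π * ζ.im)⟩

theorem om_tor {w : ℂ} (hw : 0 < w.re) (u v : ℂ) : DifferentiableAt ℝ tor w ∧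
    om (fderiv ℝ tor w u) (fderiv ℝ tor w v) = om u v := by
  have hpi := Real.pi_pos
  have h0 : 0 < w.re * (1 / π) := by positivity
  have hr := ((hasD_re w).mul (hasD_const (1 / π) w)).sqrt h0
  have hq := (hasD_const (2 * π) w).mul (hasD_im w)
  have hcos := hq.comp (h := cos) (Real.hasDerivAt_cos _)
  have hsin := hq.comp (h := sin) (Real.hasDerivAt_sin _)
  have h := om_of_hasD (F := tor) (hr.mul hcos) (hr.mul hsin) u v
  refine ⟨h.1, ?_⟩
  rw [h.2]
  have h1 := Real.sin_sq_add_cos_sq (2 * π * w.im)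
  have hs : 0 < √(w.re * (1 / π)) := Real.sqrt_pos.2 h0
  set S := sin (2 * π * w.im)
  set C := cos (2 * π * w.im)
  set r := √(w.re * (1 / π))
  have h3 : C * C = 1 - S * S := by nlinarith
  have : ((1 * (1 / π) + w.re * 0) / (2 * r) * C + r * (-S * (0 * w.im + 2 * π * 0))) *
      ((0 * (1 / π) + w.re * 0) / (2 * r) * S + r * (C * (0 * w.im + 2 * π * 1))) -
      ((0 * (1 / π) + w.re * 0) / (2 * r) * C + r * (-S * (0 * w.im + 2 * π * 1))) *
      ((1 * (1 / π) + w.re * 0) / (2 * r) * S + r * (C * (0 * w.im + 2 * π * 0)))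
      = C * C + S * S := by
    field_simp
    ring
  rw [this, h3]
  ring

theorem cd_tor {w : ℂ} (hw : 0 < w.re) : ContDiffAt ℝ ((⊤ : ℕ∞) : WithTop ℕ∞) tor w := by
  have hpi := Real.pi_pos
  have hre : ContDiffAt ℝ ((⊤ : ℕ∞) : WithTop ℕ∞) (fun w : ℂ => w.re) w := cd_re.contDiffAt
  have him : ContDiffAt ℝ ((⊤ : ℕ∞) : WithTop ℕ∞) (fun w : ℂ => w.im) w := cd_im.contDiffAt
  have hr : ContDiffAt ℝ ((⊤ : ℕ∞) : WithTop ℕ∞) (fun w : ℂ => √(w.re * (1 / π))) w :=
    (hre.mul contDiffAt_const).sqrt (by positivity)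
  have hq : ContDiffAt ℝ ((⊤ : ℕ∞) : WithTop ℕ∞) (fun w : ℂ => 2 * π * w.im) w :=
    contDiffAt_const.mul him
  have h1 : ContDiffAt ℝ ((⊤ : ℕ∞) : WithTop ℕ∞)
      (fun w : ℂ => (√(w.re * (1 / π)) * cos (2 * π * w.im),
        √(w.re * (1 / π)) * sin (2 * π * w.im))) w :=
    (hr.mul (Real.contDiff_cos.contDiffAt.comp w hq)).prodMk
      (hr.mul (Real.contDiff_sin.contDiffAt.comp w hq))
  exact Complex.equivRealProdCLM.symm.contDiff.contDiffAt.comp w h1

theorem norm_tor {w : ℂ} (hw : 0 < w.re) : π * ‖tor w‖ ^ 2 = w.re := by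
  have hpi := Real.pi_pos
  rw [← Complex.normSq_eq_norm_sq, Complex.normSq_apply]
  unfold tor
  simp only
  have h0 : 0 ≤ w.re * (1 / π) := by positivity
  have h1 := Real.mul_self_sqrt h0
  have h2 := Real.sin_sq_add_cos_sq (2 * π * w.im)
  set S := sin (2 * π * w.im)
  set C := cos (2 * π * w.im)
  set r := √(w.re * (1 / π))
  have h3 : r * C * (r * C) + r * S * (r * S) = (r * r) * (S ^ 2 + C ^ 2) := by ring
  rw [h3, h1, h2]
  field_simp

theorem tor_inj {w w' : ℂ} (hw : 0 < w.re) (hw' : 0 < w'.re) (h : tor w = tor w') :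
    w.re = w'.re ∧ ∃ m : ℤ, w.im - w'.im = m := by
  have hpi := Real.pi_pos
  have h1 : w.re = w'.re := by rw [← norm_tor hw, ← norm_tor hw', h]
  refine ⟨h1, ?_⟩
  have hre : √(w.re * (1 / π)) * cos (2 * π * w.im) = √(w'.re * (1 / π)) * cos (2 * π * w'.im) :=
    congrArg Complex.re h
  have him : √(w.re * (1 / π)) * sin (2 * π * w.im) = √(w'.re * (1 / π)) * sin (2 * π * w'.im) :=
    congrArg Complex.im h
  rw [← h1] at hre him
  have hr : √(w.re * (1 / π)) ≠ 0 := (Real.sqrt_pos.2 (by positivity)).ne'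
  have hc := mul_left_cancel₀ hr hre
  have hs := mul_left_cancel₀ hr him
  have h2 := Real.Angle.cos_sin_inj hc hs
  rw [Real.Angle.angle_eq_iff_two_pi_dvd_sub] at h2
  obtain ⟨m, hm⟩ := h2
  refine ⟨m, ?_⟩
  have h3 : 2 * π * (w.im - w'.im) = 2 * π * m := by linarith
  exact mul_left_cancel₀ (by positivity) h3

/-- the linear map `(P, Q) ↦ (A P, B Q)` -/
def lin (A B : Matrix (Fin n) (Fin n) ℝ) : (Fin n → ℂ) →ₗ[ℝ] (Fin n → ℂ) where
  toFun ζ j := ⟨∑ i, A j i * (ζ i).re, ∑ i, B j i * (ζ i).im⟩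
  map_add' ζ ξ := by
    funext j
    apply Complex.ext
    · simp [mul_add, Finset.sum_add_distrib]
    · simp [mul_add, Finset.sum_add_distrib]
  map_smul' c ζ := by
    funext j
    apply Complex.ext
    · simp only [Pi.smul_apply, Complex.smul_re, smul_eq_mul, RingHom.id_apply, Finset.mul_sum]
      exact Finset.sum_congr rfl fun i _ => by ring
    · simp only [Pi.smul_apply, Complex.smul_im, smul_eq_mul, RingHom.id_apply, Finset.mul_sum]
      exact Finset.sum_congr rfl fun i _ => by ring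

theorem omega0_lin {A B : Matrix (Fin n) (Fin n) ℝ} (hAB : A.transpose * B = 1)
    (u v : Fin n → ℂ) : omega0 (lin A B u) (lin A B v) = omega0 u v := by
  have hent : ∀ i l, ∑ j, A j i * B j l = if i = l then 1 else 0 := by
    intro i l
    have := congrFun (congrFun hAB i) l
    rw [Matrix.mul_apply, Matrix.one_apply] at this
    simpa [Matrix.transpose_apply] using this
  have key : ∀ x y : Fin n → ℝ, ∑ j, (∑ i, A j i * x i) * (∑ l, B j l * y l) = ∑ i, x i * y i := by
    intro x y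
    calc ∑ j, (∑ i, A j i * x i) * (∑ l, B j l * y l)
        = ∑ j, ∑ i, ∑ l, (A j i * B j l) * (x i * y l) := by
          refine Finset.sum_congr rfl fun j _ => ?_
          rw [Finset.sum_mul_sum]
          exact Finset.sum_congr rfl fun i _ => Finset.sum_congr rfl fun l _ => by ring
      _ = ∑ i, ∑ l, (∑ j, A j i * B j l) * (x i * y l) := by
          rw [Finset.sum_comm]
          refine Finset.sum_congr rfl fun i _ => ?_
          rw [Finset.sum_comm]
          exact Finset.sum_congr rfl fun l _ => by rw [Finset.sum_mul]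
      _ = ∑ i, x i * y i := by
          refine Finset.sum_congr rfl fun i _ => ?_
          simp_rw [hent]
          simp
  unfold omega0
  rw [Finset.sum_sub_distrib, Finset.sum_sub_distrib]
  have h1 := key (fun i => (u i).re) (fun i => (v i).im)
  have h2 := key (fun i => (v i).re) (fun i => (u i).im)
  have e1 : ∑ j, ((lin A B u) j).re * ((lin A B v) j).im = ∑ i, (u i).re * (v i).im := h1
  have e2 : ∑ j, ((lin A B u) j).im * ((lin A B v) j).re = ∑ i, (u i).im * (v i).re := by
    have e3 : ∑ j, ((lin A B u) j).im * ((lin A B v) j).re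
        = ∑ j, ((lin A B v) j).re * ((lin A B u) j).im :=
      Finset.sum_congr rfl fun i _ => mul_comm _ _
    have e4 : ∑ i, (u i).im * (v i).re = ∑ i, (v i).re * (u i).im :=
      Finset.sum_congr rfl fun i _ => mul_comm _ _
    rw [e3, e4]
    exact h2
  rw [e1, e2]

/-- the embedding -/
def emb (σ : ℂ → ℂ) (A B : Matrix (Fin n) (Fin n) ℝ) (v : Fin n → ℝ) (z : Fin n → ℂ) :
    Fin n → ℂ :=
  fun j => tor (lin A B (fun i => σ (z i)) j + (v j : ℂ))

theorem lin_re (A B : Matrix (Fin n) (Fin n) ℝ) (ζ : Fin n → ℂ) (j : Fin n) :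
    (lin A B ζ j).re = ∑ i, A j i * (ζ i).re := rfl

theorem lin_im (A B : Matrix (Fin n) (Fin n) ℝ) (ζ : Fin n → ℂ) (j : Fin n) :
    (lin A B ζ j).im = ∑ i, B j i * (ζ i).im := rfl

theorem contDiff_lin (A B : Matrix (Fin n) (Fin n) ℝ) :
    ContDiff ℝ ((⊤ : ℕ∞) : WithTop ℕ∞) (lin A B : (Fin n → ℂ) → (Fin n → ℂ)) :=
  (LinearMap.toContinuousLinearMap (lin A B)).contDiff

section emb

variable {σ : ℂ → ℂ} (hσ : ContDiff ℝ ((⊤ : ℕ∞) : WithTop ℕ∞) σ)
  (hσ2 : ∀ z u v, om (fderiv ℝ σ z u) (fderiv ℝ σ z v) = om u v)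
  {A B : Matrix (Fin n) (Fin n) ℝ} (hAB : A.transpose * B = 1) (v : Fin n → ℝ)
  {z : Fin n → ℂ} (hpos : ∀ j, 0 < ∑ i, A j i * (σ (z i)).re + v j)

include hσ hpos in
theorem contDiffAt_emb : ContDiffAt ℝ ((⊤ : ℕ∞) : WithTop ℕ∞) (emb σ A B v) z := by
  rw [contDiffAt_pi]
  intro j
  have h1 : ContDiff ℝ ((⊤ : ℕ∞) : WithTop ℕ∞) (fun z : Fin n → ℂ => fun i => σ (z i)) := by
    rw [contDiff_pi]
    intro i
    exact hσ.comp (ContinuousLinearMap.proj (R := ℝ) (φ := fun _ : Fin n => ℂ) i).contDiff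
  have h2 : ContDiff ℝ ((⊤ : ℕ∞) : WithTop ℕ∞)
      (fun z : Fin n → ℂ => lin A B (fun i => σ (z i)) j + (v j : ℂ)) := by
    have h3 := (contDiff_lin A B).comp h1
    rw [contDiff_pi] at h3
    exact (h3 j).add contDiff_const
  have h4 : 0 < (lin A B (fun i => σ (z i)) j + (v j : ℂ)).re := by
    rw [Complex.add_re, lin_re, Complex.ofReal_re]
    exact hpos j
  exact (cd_tor h4).comp z h2.contDiffAt

include hσ hσ2 hAB hpos in
theorem omega0_emb (u w : Fin n → ℂ) :
    omega0 (fderiv ℝ (emb σ A B v) z u) (fderiv ℝ (emb σ A B v) z w) = omega0 u w := by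
  have hd : ∀ y, HasFDerivAt σ (fderiv ℝ σ y) y := fun y =>
    ((hσ.differentiable (by simp)) y).hasFDerivAt
  -- the product map
  set S : (Fin n → ℂ) →L[ℝ] (Fin n → ℂ) := ContinuousLinearMap.pi fun i =>
    (fderiv ℝ σ (z i)).comp (ContinuousLinearMap.proj (R := ℝ) (φ := fun _ : Fin n => ℂ) i)
    with hS
  have h1 : HasFDerivAt (fun z : Fin n → ℂ => fun i => σ (z i)) S z := by
    rw [hasFDerivAt_pi']
    intro i
    exact (hd (z i)).comp z
      (ContinuousLinearMap.proj (R := ℝ) (φ := fun _ : Fin n => ℂ) i).hasFDerivAt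
  set L := LinearMap.toContinuousLinearMap (lin A B) with hL
  have h2 : HasFDerivAt (fun z : Fin n → ℂ => lin A B (fun i => σ (z i))) (L.comp S) z :=
    L.hasFDerivAt.comp z h1
  have hp : ∀ j, 0 < (lin A B (fun i => σ (z i)) j + (v j : ℂ)).re := by
    intro j
    rw [Complex.add_re, lin_re, Complex.ofReal_re]
    exact hpos j
  have h3 : ∀ j, HasFDerivAt (fun z : Fin n → ℂ => lin A B (fun i => σ (z i)) j + (v j : ℂ))
      ((ContinuousLinearMap.proj (R := ℝ) (φ := fun _ : Fin n => ℂ) j).comp (L.comp S)) z := by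
    intro j
    rw [hasFDerivAt_pi'] at h2
    exact (h2 j).add_const _
  have h4 : HasFDerivAt (emb σ A B v) (ContinuousLinearMap.pi fun j =>
      (fderiv ℝ tor (lin A B (fun i => σ (z i)) j + (v j : ℂ))).comp
      ((ContinuousLinearMap.proj (R := ℝ) (φ := fun _ : Fin n => ℂ) j).comp (L.comp S))) z := by
    rw [hasFDerivAt_pi']
    intro j
    exact (om_tor (hp j) 0 0).1.hasFDerivAt.comp z (h3 j)
  rw [h4.fderiv, omega0_eq]
  have h5 : ∀ u : Fin n → ℂ, ∀ j, (ContinuousLinearMap.pi fun j =>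
      (fderiv ℝ tor (lin A B (fun i => σ (z i)) j + (v j : ℂ))).comp
      ((ContinuousLinearMap.proj (R := ℝ) (φ := fun _ : Fin n => ℂ) j).comp (L.comp S))) u j
      = fderiv ℝ tor (lin A B (fun i => σ (z i)) j + (v j : ℂ)) (lin A B (S u) j) := fun u j => rfl
  have h6 : ∀ j, om (fderiv ℝ tor (lin A B (fun i => σ (z i)) j + (v j : ℂ)) (lin A B (S u) j))
      (fderiv ℝ tor (lin A B (fun i => σ (z i)) j + (v j : ℂ)) (lin A B (S w) j))
      = om (lin A B (S u) j) (lin A B (S w) j) := fun j => (om_tor (hp j) _ _).2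
  have h7 : ∑ j, om ((ContinuousLinearMap.pi fun j =>
      (fderiv ℝ tor (lin A B (fun i => σ (z i)) j + (v j : ℂ))).comp
      ((ContinuousLinearMap.proj (R := ℝ) (φ := fun _ : Fin n => ℂ) j).comp (L.comp S))) u j)
      ((ContinuousLinearMap.pi fun j =>
      (fderiv ℝ tor (lin A B (fun i => σ (z i)) j + (v j : ℂ))).comp
      ((ContinuousLinearMap.proj (R := ℝ) (φ := fun _ : Fin n => ℂ) j).comp (L.comp S))) w j)
      = ∑ j, om (lin A B (S u) j) (lin A B (S w) j) :=
    Finset.sum_congr rfl fun j _ => by rw [h5, h5]; exact h6 j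
  rw [h7, ← omega0_eq, omega0_lin hAB, omega0_eq, omega0_eq]
  exact Finset.sum_congr rfl fun j _ => hσ2 (z j) (u j) (w j)

end emb

/-- **The lattice criterion**, in terms of `β_j = 1 / b_j` -/
theorem exists_embedding {a : Fin n → ℝ} (ha : ∀ i, 0 < a i) {β : Fin n → ℝ}
    {v : Fin n → ℝ} {A : Matrix (Fin n) (Fin n) ℝ} (hA : A.det ≠ 0)
    (hv : (∀ j, 0 ≤ v j) ∧ ∑ j, v j * β j ≤ 1)
    (hAv : ∀ i, (∀ j, 0 ≤ v j + a i * A j i) ∧ ∑ j, (v j + a i * A j i) * β j ≤ 1)
    (hlat : ∀ m : Fin n → ℤ, m ≠ 0 → ∃ i, 1 ≤ |∑ j, A j i * m j|)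
    {t : ℝ} (ht : t < 1) {U : Set (Fin n → ℂ)} (hU : IsOpen U)
    (hUt : ∀ z ∈ U, ∑ i, π * ‖z i‖ ^ 2 / a i < t) :
    ∃ φ, IsSymplecticEmbedding U (El β) φ := by
  have hpi := Real.pi_pos
  -- the parameter
  obtain ⟨k, hk, hkt⟩ : ∃ k : ℝ, 0 < k ∧ k * ∑ i, (a i)⁻¹ ≤ 1 - t := by
    have h0 : 0 ≤ ∑ i, (a i)⁻¹ := Finset.sum_nonneg fun i _ => (inv_pos.2 (ha i)).le
    refine ⟨(1 - t) / (1 + ∑ i, (a i)⁻¹), div_pos (by linarith) (by linarith), ?_⟩
    rw [div_mul_eq_mul_div, div_le_iff₀ (by linarith)]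
    nlinarith
  obtain ⟨σ, hσ, hσi, hσp, hσk, hσq, hσ2⟩ := exists_sigma hk
  set B : Matrix (Fin n) (Fin n) ℝ := (A.transpose)⁻¹ with hB
  have hdetT : IsUnit A.transpose.det := by
    rw [Matrix.det_transpose]; exact isUnit_iff_ne_zero.2 hA
  have hAB : A.transpose * B = 1 := Matrix.mul_nonsing_inv _ hdetT
  -- the coordinates in the simplex
  have hx : ∀ z ∈ U, ∑ i, (σ (z i)).re / a i < 1 := by
    intro z hz
    have h1 := hUt z hz
    have h2 : ∑ i, (σ (z i)).re / a i ≤ ∑ i, (π * ‖z i‖ ^ 2 / a i + k * (a i)⁻¹) := by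
      refine Finset.sum_le_sum fun i _ => ?_
      rw [div_eq_mul_inv, div_eq_mul_inv, ← add_mul]
      exact mul_le_mul_of_nonneg_right (hσk (z i)) (inv_pos.2 (ha i)).le
    rw [Finset.sum_add_distrib, ← Finset.mul_sum] at h2
    linarith
  have hxp : ∀ z : Fin n → ℂ, ∀ i, 0 < (σ (z i)).re / a i := fun z i =>
    div_pos (hσp _) (ha i)
  have hp : ∀ z : Fin n → ℂ, ∀ j, ∑ i, A j i * (σ (z i)).re + v j
      = (1 - ∑ i, (σ (z i)).re / a i) * v j
        + ∑ i, (σ (z i)).re / a i * (v j + a i * A j i) := by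
    intro z j
    have h1 : ∑ i, (σ (z i)).re / a i * (v j + a i * A j i)
        = (∑ i, (σ (z i)).re / a i) * v j + ∑ i, A j i * (σ (z i)).re := by
      rw [Finset.sum_mul, ← Finset.sum_add_distrib]
      refine Finset.sum_congr rfl fun i _ => ?_
      have := ha i
      field_simp
    rw [h1]; ring
  have hpos : ∀ z ∈ U, ∀ j, 0 < ∑ i, A j i * (σ (z i)).re + v j := by
    intro z hz j
    rw [hp z j]
    have h0 : 0 < 1 - ∑ i, (σ (z i)).re / a i := by linarith [hx z hz]
    have hn1 : 0 ≤ (1 - ∑ i, (σ (z i)).re / a i) * v j := mul_nonneg h0.le (hv.1 j)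
    have hn2 : ∀ i, 0 ≤ (σ (z i)).re / a i * (v j + a i * A j i) := fun i =>
      mul_nonneg (hxp z i).le ((hAv i).1 j)
    rcases (hv.1 j).eq_or_lt with h1 | h1
    · -- then some other vertex is positive
      obtain ⟨i, hi⟩ : ∃ i, A j i ≠ 0 := by
        by_contra hcon
        push Not at hcon
        have h2 : (Pi.single j 1 : Fin n → ℤ) ≠ 0 := by
          intro h
          have := congrFun h j
          simp at this
        obtain ⟨i, hi⟩ := hlat _ h2
        rw [Finset.sum_eq_zero] at hi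
        · norm_num at hi
        · intro l _
          by_cases hl : l = j
          · subst hl; rw [hcon i]; simp
          · rw [Pi.single_eq_of_ne hl]; simp
      have h3 : 0 < v j + a i * A j i := by
        refine lt_of_le_of_ne ((hAv i).1 j) ?_
        rw [← h1, zero_add]
        exact (mul_ne_zero (ha i).ne' hi).symm
      have h4 : 0 < ∑ i, (σ (z i)).re / a i * (v j + a i * A j i) :=
        Finset.sum_pos' (fun i _ => hn2 i) ⟨i, Finset.mem_univ i, mul_pos (hxp z i) h3⟩
      linarith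
    · have h4 : 0 < (1 - ∑ i, (σ (z i)).re / a i) * v j := mul_pos h0 h1
      have h5 : 0 ≤ ∑ i, (σ (z i)).re / a i * (v j + a i * A j i) :=
        Finset.sum_nonneg fun i _ => hn2 i
      linarith
  have hlt : ∀ z ∈ U, ∑ j, (∑ i, A j i * (σ (z i)).re + v j) * β j < 1 := by
    intro z hz
    have h0 : 0 < 1 - ∑ i, (σ (z i)).re / a i := by linarith [hx z hz]
    have h1 : ∑ j, (∑ i, A j i * (σ (z i)).re + v j) * β j
        = (1 - ∑ i, (σ (z i)).re / a i) * (∑ j, v j * β j)
          + ∑ i, (σ (z i)).re / a i * (∑ j, (v j + a i * A j i) * β j) := by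
      simp_rw [hp z, add_mul]
      rw [Finset.sum_add_distrib, Finset.mul_sum]
      congr 1
      · exact Finset.sum_congr rfl fun j _ => by ring
      · simp_rw [Finset.sum_mul, Finset.mul_sum]
        rw [Finset.sum_comm]
        refine Finset.sum_congr rfl fun i _ => Finset.sum_congr rfl fun j _ => by ring
    have h2 : ∑ i, (σ (z i)).re / a i * (∑ j, (v j + a i * A j i) * β j)
        ≤ ∑ i, (σ (z i)).re / a i := by
      refine Finset.sum_le_sum fun i _ => ?_
      have := mul_le_mul_of_nonneg_left (hAv i).2 (hxp z i).le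
      rwa [mul_one] at this
    rcases hv.2.eq_or_lt with h3 | h3
    · -- `v` lies on the facet
      obtain ⟨i, hi⟩ : ∃ i, ∑ j, (v j + a i * A j i) * β j < 1 := by
        by_contra hcon
        push Not at hcon
        have h4 : ∀ i, ∑ j, A j i * β j = 0 := by
          intro i
          have h5 : ∑ j, (v j + a i * A j i) * β j = 1 := le_antisymm (hAv i).2 (hcon i)
          have h6 : ∑ j, (v j + a i * A j i) * β j
              = ∑ j, v j * β j + a i * ∑ j, A j i * β j := by
            rw [Finset.mul_sum, ← Finset.sum_add_distrib]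
            exact Finset.sum_congr rfl fun j _ => by ring
          rw [h6, h3] at h5
          have h7 : a i * ∑ j, A j i * β j = 0 := by linarith
          exact (mul_eq_zero.1 h7).resolve_left (ha i).ne'
        have h8 : A.transpose.mulVec β = 0 := by
          funext i
          exact h4 i
        have h9 := Matrix.eq_zero_of_mulVec_eq_zero (by rwa [Matrix.det_transpose]) h8
        rw [h9] at h3
        simp at h3
      have h4 : ∑ i, (σ (z i)).re / a i * (∑ j, (v j + a i * A j i) * β j)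
          < ∑ i, (σ (z i)).re / a i := by
        refine Finset.sum_lt_sum (fun i _ => ?_) ⟨i, Finset.mem_univ i, ?_⟩
        · have := mul_le_mul_of_nonneg_left (hAv i).2 (hxp z i).le
          rwa [mul_one] at this
        · have := mul_lt_mul_of_pos_left hi (hxp z i)
          rwa [mul_one] at this
      rw [h1, h3]
      linarith
    · have h4 : (1 - ∑ i, (σ (z i)).re / a i) * (∑ j, v j * β j)
          < (1 - ∑ i, (σ (z i)).re / a i) * 1 := mul_lt_mul_of_pos_left h3 h0
      rw [h1]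
      linarith
  refine ⟨emb σ A B v, isSymplecticEmbedding_of_injOn hU ?_ ?_ ?_ ?_⟩
  · intro z hz
    exact (contDiffAt_emb hσ v (hpos z hz)).contDiffWithinAt
  · intro z hz
    have h1 : ∀ j, π * ‖emb σ A B v z j‖ ^ 2 = ∑ i, A j i * (σ (z i)).re + v j := by
      intro j
      unfold emb
      have h2 : (lin A B (fun i => σ (z i)) j + (v j : ℂ)).re
          = ∑ i, A j i * (σ (z i)).re + v j := by
        rw [Complex.add_re, lin_re, Complex.ofReal_re]
      rw [norm_tor (by rw [h2]; exact hpos z hz j), h2]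
    change ∑ j, π * ‖emb σ A B v z j‖ ^ 2 * β j < 1
    simp_rw [h1]
    exact hlt z hz
  · intro z hz z' hz' h
    have hre : ∀ z : Fin n → ℂ, ∀ j, (lin A B (fun i => σ (z i)) j + (v j : ℂ)).re
        = ∑ i, A j i * (σ (z i)).re + v j := by
      intro z j
      rw [Complex.add_re, lin_re, Complex.ofReal_re]
    have him : ∀ z : Fin n → ℂ, ∀ j, (lin A B (fun i => σ (z i)) j + (v j : ℂ)).im
        = ∑ i, B j i * (σ (z i)).im := by
      intro z j
      rw [Complex.add_im, lin_im, Complex.ofReal_im, add_zero]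
    have h1 : ∀ j, (∑ i, A j i * (σ (z i)).re + v j = ∑ i, A j i * (σ (z' i)).re + v j) ∧
        ∃ m : ℤ, ∑ i, B j i * (σ (z i)).im - ∑ i, B j i * (σ (z' i)).im = m := by
      intro j
      have h2 := tor_inj (w := lin A B (fun i => σ (z i)) j + (v j : ℂ))
        (w' := lin A B (fun i => σ (z' i)) j + (v j : ℂ))
        (by rw [hre]; exact hpos z hz j) (by rw [hre]; exact hpos z' hz' j) (congrFun h j)
      rw [hre, hre, him, him] at h2
      exact h2
    choose h2 m hm using h1
    -- equality of the real parts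
    have h3 : A.mulVec (fun i => (σ (z i)).re - (σ (z' i)).re) = 0 := by
      funext j
      have h4 : A.mulVec (fun i => (σ (z i)).re - (σ (z' i)).re) j
          = ∑ i, A j i * (σ (z i)).re - ∑ i, A j i * (σ (z' i)).re := by
        rw [← Finset.sum_sub_distrib]
        change ∑ i, A j i * ((σ (z i)).re - (σ (z' i)).re) = _
        exact Finset.sum_congr rfl fun i _ => by ring
      rw [h4]
      have := h2 j
      simp only [Pi.zero_apply]
      linarith
    have h4 := Matrix.eq_zero_of_mulVec_eq_zero hA h3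
    -- the imaginary parts
    have hBQ : B.mulVec (fun i => (σ (z i)).im - (σ (z' i)).im) = fun j => (m j : ℝ) := by
      funext j
      rw [← hm j, ← Finset.sum_sub_distrib]
      change ∑ i, B j i * ((σ (z i)).im - (σ (z' i)).im) = _
      exact Finset.sum_congr rfl fun i _ => by ring
    have hQ : ∀ i, (σ (z i)).im - (σ (z' i)).im = ∑ j, A j i * m j := by
      intro i
      have h5 : A.transpose.mulVec (B.mulVec (fun i => (σ (z i)).im - (σ (z' i)).im))
          = fun i => (σ (z i)).im - (σ (z' i)).im := by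
        rw [Matrix.mulVec_mulVec, hAB, Matrix.one_mulVec]
      rw [hBQ] at h5
      exact (congrFun h5 i).symm
    have hm0 : m = 0 := by
      by_contra hne
      obtain ⟨i, hi⟩ := hlat m hne
      rw [← hQ i] at hi
      have h6 := abs_lt.1 (hσq (z i))
      have h7 := abs_lt.1 (hσq (z' i))
      have h8 : |(σ (z i)).im - (σ (z' i)).im| < 1 := by
        rw [abs_lt]; constructor <;> linarith
      linarith
    funext i
    apply hσi
    apply Complex.ext
    · have := congrFun h4 i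
      simp only [Pi.zero_apply] at this
      linarith
    · have h9 := hQ i
      rw [hm0] at h9
      simp at h9
      linarith
  · intro z hz u w
    exact omega0_emb hσ hσ2 hAB v (hpos z hz) u w

end

end Pool.Agent.LAT
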