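import Mathlib

/-!
# An explicit area preserving embedding of the plane into a half strip: the formulas
-/

open Real

namespace Pool.Agent.LAT

/-- `f : ℂ → ℝ` has the derivatives `f₁` (in `x`) and `f₂` (in `y`) at `w` -/
def HasD (f : ℂ → ℝ) (f₁ f₂ : ℝ) (w : ℂ) : Prop :=
  HasFDerivAt f (f₁ • Complex.reCLM + f₂ • Complex.imCLM) w

theorem hasD_re (w : ℂ) : HasD (fun w => w.re) 1 0 w := by
  unfold HasD
  rw [one_smul, zero_smul, add_zero]
  exact Complex.reCLM.hasFDerivAt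

theorem hasD_im (w : ℂ) : HasD (fun w => w.im) 0 1 w := by
  unfold HasD
  rw [one_smul, zero_smul, zero_add]
  exact Complex.imCLM.hasFDerivAt

theorem hasD_const (c : ℝ) (w : ℂ) : HasD (fun _ => c) 0 0 w := by
  unfold HasD
  rw [zero_smul, zero_smul, zero_add]
  exact hasFDerivAt_const c w

theorem HasD.congr {f : ℂ → ℝ} {f₁ f₂ g₁ g₂ : ℝ} {w : ℂ} (h : HasD f f₁ f₂ w)
    (h₁ : f₁ = g₁) (h₂ : f₂ = g₂) : HasD f g₁ g₂ w := by
  subst h₁ h₂; exact h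

theorem HasD.add {f g : ℂ → ℝ} {f₁ f₂ g₁ g₂ : ℝ} {w : ℂ} (hf : HasD f f₁ f₂ w)
    (hg : HasD g g₁ g₂ w) : HasD (fun w => f w + g w) (f₁ + g₁) (f₂ + g₂) w := by
  unfold HasD at *
  refine (hf.add hg).congr_fderiv ?_
  rw [add_smul, add_smul]
  abel

theorem HasD.mul {f g : ℂ → ℝ} {f₁ f₂ g₁ g₂ : ℝ} {w : ℂ} (hf : HasD f f₁ f₂ w)
    (hg : HasD g g₁ g₂ w) :
    HasD (fun w => f w * g w) (f₁ * g w + f w * g₁) (f₂ * g w + f w * g₂) w := by
  unfold HasD at *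
  refine (hf.mul hg).congr_fderiv ?_
  module

theorem HasD.comp {f : ℂ → ℝ} {h : ℝ → ℝ} {f₁ f₂ h' : ℝ} {w : ℂ} (hh : HasDerivAt h h' (f w))
    (hf : HasD f f₁ f₂ w) : HasD (fun w => h (f w)) (h' * f₁) (h' * f₂) w := by
  unfold HasD at *
  refine (hh.comp_hasFDerivAt w hf).congr_fderiv ?_
  module

theorem HasD.sqrt {f : ℂ → ℝ} {f₁ f₂ : ℝ} {w : ℂ} (hf : HasD f f₁ f₂ w) (h0 : 0 < f w) :
    HasD (fun w => √(f w)) (f₁ / (2 * √(f w))) (f₂ / (2 * √(f w))) w := by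
  have := hf.comp (h := fun x => √x) (Real.hasDerivAt_sqrt h0.ne')
  exact this.congr (by ring) (by ring)

theorem HasD.inv {f : ℂ → ℝ} {f₁ f₂ : ℝ} {w : ℂ} (hf : HasD f f₁ f₂ w) (h0 : f w ≠ 0) :
    HasD (fun w => (f w)⁻¹) (-f₁ / (f w) ^ 2) (-f₂ / (f w) ^ 2) w := by
  have := hf.comp (h := fun x => x⁻¹) (hasDerivAt_inv h0)
  exact this.congr (by ring) (by ring)

theorem HasD.div {f g : ℂ → ℝ} {f₁ f₂ g₁ g₂ : ℝ} {w : ℂ} (hf : HasD f f₁ f₂ w)
    (hg : HasD g g₁ g₂ w) (h0 : g w ≠ 0) :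
    HasD (fun w => f w / g w) ((f₁ * g w - f w * g₁) / (g w) ^ 2)
      ((f₂ * g w - f w * g₂) / (g w) ^ 2) w := by
  have := hf.mul (hg.inv h0)
  have h2 : (fun w => f w / g w) = fun w => f w * (g w)⁻¹ := by
    funext w; rw [div_eq_mul_inv]
  rw [h2]
  exact this.congr (by field_simp; ring) (by field_simp; ring)

/-- the standard area form on `ℂ` -/
def om (u v : ℂ) : ℝ := u.re * v.im - u.im * v.re

/-- from the derivatives to the pull back of the area form -/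
theorem om_of_hasD {F : ℂ → ℂ} {w : ℂ} {a₁ a₂ b₁ b₂ : ℝ}
    (hre : HasD (fun w => (F w).re) a₁ a₂ w) (him : HasD (fun w => (F w).im) b₁ b₂ w)
    (u v : ℂ) : DifferentiableAt ℝ F w ∧
      om (fderiv ℝ F w u) (fderiv ℝ F w v) = (a₁ * b₂ - a₂ * b₁) * om u v := by
  unfold HasD at *
  have hF : HasFDerivAt F (Complex.equivRealProdCLM.symm.toContinuousLinearMap.comp
      ((a₁ • Complex.reCLM + a₂ • Complex.imCLM).prod
        (b₁ • Complex.reCLM + b₂ • Complex.imCLM))) w := by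
    have h1 := (hre.prodMk him)
    exact (Complex.equivRealProdCLM.symm.toContinuousLinearMap.hasFDerivAt
      (x := ((F w).re, (F w).im))).comp w h1
  refine ⟨hF.differentiableAt, ?_⟩
  rw [hF.fderiv]
  unfold om
  simp
  ring

end Pool.Agent.LAT
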