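import Pool.Agent.LAT.Jac

/-!
# An explicit area preserving embedding of the plane into a half strip
-/

open Real Filter Topology

namespace Pool.Agent.LAT

noncomputable section

/-- a local inverse of an injective smooth map is smooth -/
theorem contDiff_of_rightInverse {E : Type*} [NormedAddCommGroup E] [NormedSpace ℝ E]
    [FiniteDimensional ℝ E] {f g : E → E} {n : WithTop ℕ∞} (hn : n ≠ 0)
    (hf : ContDiff ℝ n f)
    (hd : ∀ w, Function.Injective (fderiv ℝ f w)) (hfg : ∀ z, f (g z) = z)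
    (hinj : Function.Injective f) : ContDiff ℝ n g := by
  rw [contDiff_iff_contDiffAt]
  intro z
  have : CompleteSpace E := FiniteDimensional.complete ℝ E
  set w := g z with hw
  set e : E ≃L[ℝ] E := (LinearEquiv.ofInjectiveEndo (fderiv ℝ f w : E →ₗ[ℝ] E)
    (hd w)).toContinuousLinearEquiv with he
  have he' : (e : E →L[ℝ] E) = fderiv ℝ f w := by
    ext x; rfl
  have hdiff : DifferentiableAt ℝ f w := (hf.differentiable hn) w
  have hfd : HasFDerivAt f (e : E →L[ℝ] E) w := by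
    rw [he']; exact hdiff.hasFDerivAt
  have hfa : ContDiffAt ℝ n f w := hf.contDiffAt
  have h1 := hfa.to_localInverse hfd hn
  have h2 : f w = z := hfg z
  rw [h2] at h1
  refine h1.congr_of_eventuallyEq ?_
  have h3 := (hfa.hasStrictFDerivAt' hfd hn).eventually_right_inverse
  rw [h2] at h3
  filter_upwards [h3] with y hy
  apply hinj
  rw [hfg y]
  exact hy.symm

section smooth

variable {k : ℝ} (hk : 0 < k)

theorem cd_re : ContDiff ℝ ((⊤ : ℕ∞) : WithTop ℕ∞) (fun w : ℂ => w.re) := Complex.reCLM.contDiff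
theorem cd_im : ContDiff ℝ ((⊤ : ℕ∞) : WithTop ℕ∞) (fun w : ℂ => w.im) := Complex.imCLM.contDiff

theorem cd_TT : ContDiff ℝ ((⊤ : ℕ∞) : WithTop ℕ∞) (TT k) :=
  contDiff_const.add ((cd_re.mul cd_re).add (cd_im.mul cd_im))

include hk

theorem cd_cc : ContDiff ℝ ((⊤ : ℕ∞) : WithTop ℕ∞) (cc k) :=
  (cd_TT.add contDiff_const).sqrt fun w => by linarith [TT_pos hk w] |> ne_of_gt

theorem cd_UU : ContDiff ℝ ((⊤ : ℕ∞) : WithTop ℕ∞) (UU k) := cd_re.mul (cd_cc hk)

theorem cd_VV : ContDiff ℝ ((⊤ : ℕ∞) : WithTop ℕ∞) (VV k) := cd_im.mul (cd_cc hk)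

theorem cd_EE : ContDiff ℝ ((⊤ : ℕ∞) : WithTop ℕ∞) (EE k) :=
  (contDiff_const.add ((cd_UU hk).mul (cd_UU hk))).sqrt fun w => (EE_arg hk w).ne'

theorem cd_MM : ContDiff ℝ ((⊤ : ℕ∞) : WithTop ℕ∞) (MM k) :=
  ((cd_TT.mul cd_TT).add contDiff_const).sqrt fun w => (MM_arg hk w).ne'

theorem cd_ss : ContDiff ℝ ((⊤ : ℕ∞) : WithTop ℕ∞) (ss k) :=
  ((cd_UU hk).mul cd_TT).div (cd_EE hk) fun w => (EE_pos hk w).ne'

theorem cd_PP : ContDiff ℝ ((⊤ : ℕ∞) : WithTop ℕ∞) (PP k) :=
  ((cd_ss hk).add ((((cd_ss hk).mul (cd_ss hk)).add contDiff_const).sqrt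
    fun w => (ss_arg hk w).ne')).mul contDiff_const

theorem cd_arcsin {f : ℂ → ℝ} (hf : ContDiff ℝ ((⊤ : ℕ∞) : WithTop ℕ∞) f)
    (h : ∀ w, (f w) ^ 2 < 1) : ContDiff ℝ ((⊤ : ℕ∞) : WithTop ℕ∞) (fun w => arcsin (f w)) := by
  clear hk
  rw [contDiff_iff_contDiffAt] at hf ⊢
  intro w
  have hlt := h w
  have hne1 : f w ≠ -1 := by
    intro h; rw [h] at hlt; norm_num at hlt
  have hne2 : f w ≠ 1 := by
    intro h; rw [h] at hlt; norm_num at hlt
  exact (Real.contDiffAt_arcsin hne1 hne2).comp w (hf w)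

theorem cd_QQ : ContDiff ℝ ((⊤ : ℕ∞) : WithTop ℕ∞) (QQ k) :=
  (cd_arcsin hk ((cd_VV hk).div cd_TT fun w => (TT_pos hk w).ne') (S_sq_lt hk)).mul contDiff_const

theorem cd_chi : ContDiff ℝ ((⊤ : ℕ∞) : WithTop ℕ∞) (chi k) :=
  (cd_TT.div (cd_MM hk) fun w => (MM_pos hk w).ne').mul
    (cd_arcsin hk (((cd_MM hk).mul (cd_VV hk)).div (cd_TT.mul cd_TT) fun w => by
      have := TT_pos hk w
      positivity) (W_sq_lt hk))

theorem cd_mk {f g : ℂ → ℝ} (hf : ContDiff ℝ ((⊤ : ℕ∞) : WithTop ℕ∞) f)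
    (hg : ContDiff ℝ ((⊤ : ℕ∞) : WithTop ℕ∞) g) :
    ContDiff ℝ ((⊤ : ℕ∞) : WithTop ℕ∞) (fun w => (⟨f w, g w⟩ : ℂ)) := by
  clear hk
  exact Complex.equivRealProdCLM.symm.contDiff.comp (hf.prodMk hg)

theorem cd_FF : ContDiff ℝ ((⊤ : ℕ∞) : WithTop ℕ∞) (FF k) := cd_mk hk (cd_PP hk) (cd_QQ hk)

theorem cd_rho : ContDiff ℝ ((⊤ : ℕ∞) : WithTop ℕ∞) (rho k) :=
  cd_mk hk
    ((cd_re.mul (Real.contDiff_cos.comp (cd_chi hk))).add
      (contDiff_const.mul (cd_im.mul (Real.contDiff_sin.comp (cd_chi hk)))))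
    ((cd_re.mul (Real.contDiff_sin.comp (cd_chi hk))).add
      (cd_im.mul (Real.contDiff_cos.comp (cd_chi hk))))

end smooth

section bounds

variable {k : ℝ} (hk : 0 < k) (w : ℂ)

include hk

theorem PP_pos : 0 < PP k w := by
  have h1 := ss_arg hk w
  have h2 : |ss k w| < √(ss k w * ss k w + k * k) := by
    apply Real.lt_sqrt_of_sq_lt
    rw [sq_abs]
    nlinarith
  have h3 := (abs_lt.1 h2).1
  unfold PP
  linarith

theorem PP_le : PP k w ≤ TT k w := by
  have hE := EE_pos hk w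
  have hT := TT_pos hk w
  have hR := RR_pos hk w
  have hkey := key hk w
  have hE2 := EE_sq hk w
  have hR2 := RR_sq hk w
  have h1 : EE k w ≤ TT k w := by
    apply le_of_sq_le_sq _ hT.le
    nlinarith [mul_self_nonneg (VV k w)]
  have h2 : UU k w ≤ EE k w := by
    by_contra hc
    push Not at hc
    nlinarith [mul_pos hk hk]
  have h3 : ss k w ≤ TT k w := by
    unfold ss
    rw [div_le_iff₀ hE, mul_comm]
    exact mul_le_mul_of_nonneg_left h2 hT.le
  have h4 : RR k w / EE k w ≤ TT k w := by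
    rw [div_le_iff₀ hE]
    apply le_of_sq_le_sq _ (by positivity)
    have h5 : UU k w * UU k w = EE k w * EE k w - k * k := by linarith
    have h6 : k * k * (EE k w * EE k w) ≤ k * k * (TT k w * TT k w) := by
      apply mul_le_mul_of_nonneg_left _ (by positivity)
      nlinarith
    have h7 : RR k w ^ 2 = RR k w * RR k w := by ring
    rw [h7, hR2, h5]
    nlinarith
  unfold PP
  rw [sqrt_ss hk w]
  linarith

theorem TT_eq : TT k w = k + ‖w‖ ^ 2 := by
  clear hk
  unfold TT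
  rw [← Complex.normSq_eq_norm_sq, Complex.normSq_apply]

theorem QQ_lt : |QQ k w| < 1 / 2 := by
  have h1 := S_sq_lt hk w
  have h2 : |VV k w / TT k w| < 1 := by
    rw [← sq_lt_one_iff_abs_lt_one]; exact h1
  obtain ⟨h3, h4⟩ := abs_lt.1 h2
  have h5 : arcsin (VV k w / TT k w) < π / 2 := Real.arcsin_lt_pi_div_two.2 h4
  have h6 : -(π / 2) < arcsin (VV k w / TT k w) := Real.neg_pi_div_two_lt_arcsin.2 h3
  have hpi := Real.pi_pos
  unfold QQ
  rw [abs_lt]
  constructor
  · rw [mul_one_div, lt_div_iff₀ hpi]; linarith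
  · rw [mul_one_div, div_lt_iff₀ hpi]; linarith

omit hk in
theorem inj_FF (hk : 0 < k) : Function.Injective (FF k) := by
  intro w w' h
  have hP : PP k w = PP k w' := congrArg Complex.re h
  have hQ : QQ k w = QQ k w' := congrArg Complex.im h
  have hpi := Real.pi_pos
  have hQ' : arcsin (VV k w / TT k w) = arcsin (VV k w' / TT k w') := by
    unfold QQ at hQ
    have : (1 / π : ℝ) ≠ 0 := by positivity
    exact mul_right_cancel₀ this hQ
  have hS1 : ∀ w : ℂ, sin (arcsin (VV k w / TT k w)) = VV k w / TT k w := by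
    intro w
    have h1 := S_sq_lt hk w
    have h2 : |VV k w / TT k w| < 1 := by
      rw [← sq_lt_one_iff_abs_lt_one]; exact h1
    obtain ⟨h3, h4⟩ := abs_lt.1 h2
    exact Real.sin_arcsin h3.le h4.le
  have hS : VV k w / TT k w = VV k w' / TT k w' := by
    rw [← hS1 w, ← hS1 w', hQ']
  -- `s` is determined by `P`
  have hs1 : ∀ w : ℂ, 4 * PP k w * ss k w = 4 * PP k w ^ 2 - k * k := by
    intro w
    have h1 : √(ss k w * ss k w + k * k) = 2 * PP k w - ss k w := by unfold PP; ring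
    have h2 := Real.mul_self_sqrt (ss_arg hk w).le
    rw [h1] at h2
    nlinarith
  have hs : ss k w = ss k w' := by
    have h1 := hs1 w
    have h2 := hs1 w'
    rw [hP] at h1
    have h3 : 4 * PP k w' * ss k w = 4 * PP k w' * ss k w' := by linarith
    have h4 := PP_pos hk w'
    exact mul_left_cancel₀ (by positivity) h3
  have hET : EE k w / TT k w = EE k w' / TT k w' := by
    rw [← sqrt_S hk w, ← sqrt_S hk w', hS]
  have hE := EE_pos hk w
  have hT := TT_pos hk w
  have hE' := EE_pos hk w'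
  have hT' := TT_pos hk w'
  have hU1 : ∀ w : ℂ, UU k w = ss k w * (EE k w / TT k w) := by
    intro w
    have hE := EE_pos hk w
    have hT := TT_pos hk w
    unfold ss; field_simp
  have hU : UU k w = UU k w' := by rw [hU1 w, hU1 w', hs, hET]
  have hEE : EE k w = EE k w' := by unfold EE; rw [hU]
  have hTT : TT k w = TT k w' := by
    rw [hEE, div_eq_div_iff hT.ne' hT'.ne'] at hET
    exact (mul_left_cancel₀ hE'.ne' hET).symm
  have hVV : VV k w = VV k w' := by
    rw [hTT] at hS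
    exact (div_left_inj' hT'.ne').1 hS
  have hcc : cc k w = cc k w' := by unfold cc; rw [hTT]
  have hc := cc_pos hk w'
  apply Complex.ext
  · unfold UU at hU; rw [hcc] at hU; exact mul_right_cancel₀ hc.ne' hU
  · unfold VV at hVV; rw [hcc] at hVV; exact mul_right_cancel₀ hc.ne' hVV

omit hk in
theorem norm_rho (k : ℝ) (w : ℂ) : ‖rho k w‖ = ‖w‖ := by
  have h : ‖rho k w‖ ^ 2 = ‖w‖ ^ 2 := by
    rw [← Complex.normSq_eq_norm_sq, ← Complex.normSq_eq_norm_sq, Complex.normSq_apply,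
      Complex.normSq_apply]
    unfold rho
    simp only
    have h1 := Real.sin_sq_add_cos_sq (chi k w)
    set S := sin (chi k w)
    set C := cos (chi k w)
    have h3 : C * C = 1 - S * S := by nlinarith
    ring_nf
    ring_nf at h3
    rw [h3]
    ring
  exact (sq_eq_sq₀ (norm_nonneg _) (norm_nonneg _)).1 h

end bounds

end

end Pool.Agent.LAT
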