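import Pool.Agent.LAT.Plane

/-!
# An explicit area preserving embedding of the plane into a half strip: the two maps
-/

open Real

namespace Pool.Agent.LAT

noncomputable section

variable (k : ℝ)

def TT (w : ℂ) : ℝ := k + (w.re * w.re + w.im * w.im)
def cc (w : ℂ) : ℝ := √(TT k w + k)
def UU (w : ℂ) : ℝ := w.re * cc k w
def VV (w : ℂ) : ℝ := w.im * cc k w
def EE (w : ℂ) : ℝ := √(k * k + UU k w * UU k w)
def ss (w : ℂ) : ℝ := UU k w * TT k w / EE k w
def PP (w : ℂ) : ℝ := (ss k w + √(ss k w * ss k w + k * k)) * (1 / 2)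
def QQ (w : ℂ) : ℝ := arcsin (VV k w / TT k w) * (1 / π)
def MM (w : ℂ) : ℝ := √(TT k w * TT k w + k * k)
def chi (w : ℂ) : ℝ := TT k w / MM k w * arcsin (MM k w * VV k w / (TT k w * TT k w))
def RR (w : ℂ) : ℝ := √(TT k w * TT k w * (UU k w * UU k w) + k * k * (EE k w * EE k w))

/-- the map to the half strip -/
def FF (w : ℂ) : ℂ := ⟨PP k w, QQ k w⟩
/-- the angular reparametrisation -/
def rho (w : ℂ) : ℂ :=
  ⟨w.re * cos (chi k w) + -1 * (w.im * sin (chi k w)),
    w.re * sin (chi k w) + w.im * cos (chi k w)⟩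
/-- the common Jacobian -/
def JJ (w : ℂ) : ℝ := 1 + UU k w * TT k w / RR k w

variable {k} (hk : 0 < k) (w : ℂ)

include hk

theorem TT_ge : k ≤ TT k w := by
  unfold TT; nlinarith [mul_self_nonneg w.re, mul_self_nonneg w.im]

theorem TT_pos : 0 < TT k w := lt_of_lt_of_le hk (TT_ge hk w)

theorem cc_pos : 0 < cc k w := Real.sqrt_pos.2 (by linarith [TT_pos hk w])

theorem cc_sq : cc k w * cc k w = TT k w + k :=
  Real.mul_self_sqrt (by linarith [TT_pos hk w])

theorem EE_arg : 0 < k * k + UU k w * UU k w := by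
  nlinarith [mul_self_nonneg (UU k w), mul_pos hk hk]

theorem EE_pos : 0 < EE k w := Real.sqrt_pos.2 (EE_arg hk w)

theorem EE_sq : EE k w * EE k w = k * k + UU k w * UU k w :=
  Real.mul_self_sqrt (EE_arg hk w).le

theorem key : TT k w * TT k w - VV k w * VV k w = EE k w * EE k w := by
  have h1 := cc_sq hk w
  rw [EE_sq hk w]
  have h2 : UU k w * UU k w + VV k w * VV k w
      = (w.re * w.re + w.im * w.im) * (TT k w + k) := by
    unfold UU VV
    rw [← h1]; ring
  have h3 : w.re * w.re + w.im * w.im = TT k w - k := by unfold TT; ring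
  rw [h3] at h2
  nlinarith [h2]

theorem MM_arg : 0 < TT k w * TT k w + k * k := by
  nlinarith [mul_self_nonneg (TT k w), mul_pos hk hk]

theorem MM_pos : 0 < MM k w := Real.sqrt_pos.2 (MM_arg hk w)

theorem MM_sq : MM k w * MM k w = TT k w * TT k w + k * k :=
  Real.mul_self_sqrt (MM_arg hk w).le

theorem RR_arg : 0 < TT k w * TT k w * (UU k w * UU k w) + k * k * (EE k w * EE k w) := by
  have h1 := EE_pos hk w
  have h2 : 0 ≤ (TT k w * UU k w) * (TT k w * UU k w) := mul_self_nonneg _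
  have h3 : 0 < (k * EE k w) * (k * EE k w) := by positivity
  nlinarith

theorem RR_pos : 0 < RR k w := Real.sqrt_pos.2 (RR_arg hk w)

theorem RR_sq : RR k w * RR k w
    = TT k w * TT k w * (UU k w * UU k w) + k * k * (EE k w * EE k w) :=
  Real.mul_self_sqrt (RR_arg hk w).le

theorem one_sub_S : 1 - (VV k w / TT k w) ^ 2 = (EE k w / TT k w) ^ 2 := by
  have h1 := TT_pos hk w
  have h2 := key hk w
  field_simp
  linarith

theorem sqrt_S : √(1 - (VV k w / TT k w) ^ 2) = EE k w / TT k w := by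
  rw [one_sub_S hk w, Real.sqrt_sq (div_pos (EE_pos hk w) (TT_pos hk w)).le]

theorem S_sq_lt : (VV k w / TT k w) ^ 2 < 1 := by
  have h1 := one_sub_S hk w
  have h2 : 0 < (EE k w / TT k w) ^ 2 := by
    have := div_pos (EE_pos hk w) (TT_pos hk w)
    positivity
  linarith

theorem one_sub_W : 1 - (MM k w * VV k w / (TT k w * TT k w)) ^ 2
    = (RR k w / (TT k w * TT k w)) ^ 2 := by
  have h1 := TT_pos hk w
  have h2 := key hk w
  have h3 := RR_sq hk w
  have h4 := MM_sq hk w
  have h5 := EE_sq hk w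
  rw [div_pow, div_pow, mul_pow, pow_two (MM k w), pow_two (RR k w), h3, h4]
  field_simp
  have h6 : VV k w ^ 2 = TT k w ^ 2 - EE k w ^ 2 := by nlinarith
  have h7 : UU k w ^ 2 = EE k w ^ 2 - k ^ 2 := by nlinarith
  rw [h6, h7]
  ring

theorem sqrt_W : √(1 - (MM k w * VV k w / (TT k w * TT k w)) ^ 2)
    = RR k w / (TT k w * TT k w) := by
  rw [one_sub_W hk w, Real.sqrt_sq]
  have h1 := TT_pos hk w
  have h2 := RR_pos hk w
  positivity

theorem W_sq_lt : (MM k w * VV k w / (TT k w * TT k w)) ^ 2 < 1 := by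
  have h1 := one_sub_W hk w
  have h2 : 0 < (RR k w / (TT k w * TT k w)) ^ 2 := by
    have h3 := TT_pos hk w
    have h4 := RR_pos hk w
    positivity
  linarith

theorem ss_arg : 0 < ss k w * ss k w + k * k := by
  nlinarith [mul_self_nonneg (ss k w), mul_pos hk hk]

theorem sqrt_ss : √(ss k w * ss k w + k * k) = RR k w / EE k w := by
  have h1 := EE_pos hk w
  have h2 := RR_pos hk w
  rw [Real.sqrt_eq_iff_mul_self_eq (ss_arg hk w).le (by positivity)]
  have h3 := RR_sq hk w
  unfold ss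
  field_simp
  nlinarith [h3]

theorem JJ_pos : 0 < JJ k w := by
  have h1 := RR_pos hk w
  have h2 := RR_sq hk w
  have h3 := EE_pos hk w
  have h4 : |UU k w * TT k w| < RR k w := by
    apply abs_lt_of_sq_lt_sq _ h1.le
    have : 0 < (k * EE k w) * (k * EE k w) := by positivity
    nlinarith
  have h5 := (abs_lt.1 h4).1
  unfold JJ
  have h6 : -1 < UU k w * TT k w / RR k w := by
    rw [lt_div_iff₀ h1]; linarith
  linarith

end

end Pool.Agent.LAT
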